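import Pool.Agent.W710.DP.Stm1

/-! # DP-PATH: the interval as a chain -/

set_option autoImplicit false

namespace Pool.Agent.W327.DP

open Finsupp Pool.Agent.W710.DP

theorem bdL_pair (a b : ℝ) : bdL [a, b] = single [b] 1 + single [a] (1 : ZMod 2) := by
  simp [bdL]

theorem dbl {α : Type} (a : α) : single a (1 : ZMod 2) + single a 1 = 0 := by
  rw [← single_add]
  have : (1 : ZMod 2) + 1 = 0 := rfl
  rw [this, single_zero]

theorem bd_sum (r : ℕ → ℝ) (m : ℕ) :
    bd (∑ k ∈ Finset.range m, single [r k, r (k + 1)] (1 : ZMod 2)) =
      single [r m] 1 + single [r 0] 1 := by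
  induction m with
  | zero => simp [dbl]
  | succ m ih =>
    rw [Finset.sum_range_succ, map_add, ih]
    unfold bd
    rw [linearCombination_single, one_smul, bdL_pair]
    have h := dbl [r m]
    calc single [r m] (1 : ZMod 2) + single [r 0] 1 + (single [r (m + 1)] 1 + single [r m] 1)
        = (single [r m] 1 + single [r m] 1) + (single [r (m + 1)] 1 + single [r 0] 1) := by abel
      _ = _ := by rw [h, zero_add]

theorem pr_sum (r : ℕ → ℝ) (f : ℝ → ZMod 2) (m : ℕ) :
    pr (ev [f]) (∑ k ∈ Finset.range m, single [r k, r (k + 1)] (1 : ZMod 2)) =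
      f (r m) + f (r 0) := by
  have hc : ∀ x : ZMod 2, x + x = 0 := by decide
  induction m with
  | zero => simp [hc]
  | succ m ih =>
    rw [Finset.sum_range_succ, map_add, ih]
    unfold pr
    rw [linearCombination_single, one_smul]
    simp only [ev]
    linear_combination hc (f (r m))

theorem t_path : S_path := by
  intro R hR ε hε
  obtain ⟨n, hn⟩ := exists_nat_gt (2 * R / ε)
  have hn0 : (0 : ℝ) < n := lt_of_le_of_lt (by positivity) hn
  have hn1 : 2 * R / n ≤ ε := by
    rw [div_lt_iff₀ hε] at hn
    rw [div_le_iff₀ hn0]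
    linarith
  have hstep : 0 ≤ 2 * R / n := by positivity
  let r : ℕ → ℝ := fun k => -R + 2 * R / n * k
  have hr0 : r 0 = -R := by simp [r]
  have hrn : r n = R := by
    simp only [r]
    field_simp
    ring
  have hrs : ∀ k, r (k + 1) - r k = 2 * R / n := by
    intro k
    simp only [r]
    push_cast
    ring
  have hrb : ∀ k ≤ n, |r k| ≤ R := by
    intro k hk
    have h1 : (k : ℝ) ≤ n := by exact_mod_cast hk
    have h2 : 2 * R / n * k ≤ 2 * R / n * n := mul_le_mul_of_nonneg_left h1 hstep
    have h3 : 2 * R / n * n = 2 * R := by field_simp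
    have h4 : 0 ≤ 2 * R / n * k := mul_nonneg hstep (Nat.cast_nonneg k)
    rw [abs_le]
    simp only [r]
    constructor <;> linarith
  refine ⟨∑ k ∈ Finset.range n, single [r k, r (k + 1)] 1, ?_, ?_, ?_⟩
  · intro t ht
    obtain ⟨k, hk, ht2⟩ : ∃ k ∈ Finset.range n, t ∈ (single [r k, r (k + 1)] (1 : ZMod 2)).support := by
      have := Finsupp.support_finsetSum ht
      simpa using this
    have ht3 : t = [r k, r (k + 1)] := by
      have := Finsupp.support_single_subset ht2
      simpa using this
    rw [Finset.mem_range] at hk
    subst ht3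
    have h1 := hrs k
    have h2 := hrb k hk.le
    have h3 := hrb (k + 1) hk
    refine ⟨rfl, ?_, ?_⟩
    · intro p hp q hq
      simp only [List.mem_cons, List.not_mem_nil, or_false] at hp hq
      rcases hp with rfl | rfl <;> rcases hq with rfl | rfl
      · simp [hε.le]
      · rw [abs_sub_comm, h1, abs_of_nonneg hstep]; exact hn1
      · rw [h1, abs_of_nonneg hstep]; exact hn1
      · simp [hε.le]
    · intro p hp
      simp only [List.mem_cons, List.not_mem_nil, or_false] at hp
      rcases hp with rfl | rfl
      · exact h2
      · exact h3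
  · rw [bd_sum, hr0, hrn]
    intro t ht
    have := Finsupp.support_add ht
    rw [Finset.mem_union] at this
    rcases this with h | h
    · left
      have := Finsupp.support_single_subset h
      simpa using this
    · right
      have := Finsupp.support_single_subset h
      simpa using this
  · rw [pr_sum, hr0, hrn]
    simp [hR, hR.le]

end Pool.Agent.W327.DP
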